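import Pool.Agent.ZRT.StmtsA

/-!
# Squad ZRT, row YB4: the isometry on the cylinder
-/

noncomputable section

open scoped ContDiff Topology RealInnerProductSpace
open Set

namespace Pool.Agent.ZRT.H74

open Pool.Agent.RF Pool.Agent.SecondKind Pool.Agent.MinVolSphere Pool.Agent.MVS

/-- the coordinate isomorphism -/
abbrev yL : E5 ≃L[ℝ] (Fin 5 → ℝ) := EuclideanSpace.equiv (Fin 5) ℝ

theorem yb4_vc (x : Fin 5 → ℝ) : vc x = yL.symm x := rfl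

theorem yb4_L_vc (x : Fin 5 → ℝ) : yL (vc x) = x := ContinuousLinearEquiv.apply_symm_apply _ _

theorem yb4_vc_L (x : E5) : vc (yL x) = x := ContinuousLinearEquiv.symm_apply_apply _ _

theorem yb4_inner_vc (x y : Fin 5 → ℝ) : ⟪vc x, vc y⟫ = ∑ i, x i * y i := by
  simp only [vc, PiLp.inner_apply]
  refine Finset.sum_congr rfl fun i _ => ?_
  simp [mul_comm]

theorem yb4_sphere_iff (x : Fin 5 → ℝ) : OnSphere x ↔ ‖vc x‖ = 1 := by
  have h : ‖vc x‖ ^ 2 = ∑ i, x i ^ 2 := by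
    rw [← real_inner_self_eq_norm_sq, yb4_inner_vc]
    exact Finset.sum_congr rfl fun i _ => by ring
  have hn := norm_nonneg (vc x)
  unfold OnSphere
  constructor
  · intro h1
    rw [h1] at h
    nlinarith
  · intro h1
    rw [← h, h1]
    norm_num

/-- decomposition of the values of the metric at a unit vector -/
theorem yb4_split {G : E5 → Bil E5} (hG : IsCyl G) {ξ : E5} (hξ : ‖ξ‖ = 1) (v w : E5) (lam mu : ℝ)
    (hv : ⟪ξ, v⟫ = (0 : ℝ)) (hw : ⟪ξ, w⟫ = (0 : ℝ)) :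
    G ξ (v + lam • ξ) (w + mu • ξ) = G ξ v w + lam * mu := by
  have hξ0 : ξ ∈ Om (Fin 5) := by
    intro h; rw [h, norm_zero] at hξ; exact zero_ne_one hξ
  have r1 := hG.radial ξ hξ0 w
  have r2 := hG.radial ξ hξ0 v
  have r3 := hG.radial ξ hξ0 ξ
  have s := hG.metric.symm ξ hξ0 v ξ
  rw [hw, zero_div] at r1
  rw [hv, zero_div] at r2
  rw [real_inner_self_eq_norm_sq, hξ] at r3
  rw [r2] at s
  simp only [map_add, map_smul, add_apply, smul_apply,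
    smul_eq_mul, r1, r3, s]
  ring

/-- the extension of a map of the sphere -/
def yf (φ : (Fin 5 → ℝ) → Fin 5 → ℝ) (x : E5) : E5 := ‖x‖ • vc (φ (‖x‖⁻¹ • yL x))

section

variable {φ : (Fin 5 → ℝ) → Fin 5 → ℝ}

theorem yf_norm (hm : ∀ x, OnSphere x → OnSphere (φ x)) (x : E5) : ‖yf φ x‖ = ‖x‖ := by
  by_cases h : x = 0
  · simp [yf, h]
  · have hn : 0 < ‖x‖ := norm_pos_iff.2 h
    have h1 : OnSphere (‖x‖⁻¹ • yL x) := by
      rw [yb4_sphere_iff]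
      have h2 : vc (‖x‖⁻¹ • yL x) = ‖x‖⁻¹ • x := by
        rw [yb4_vc, map_smul, ContinuousLinearEquiv.symm_apply_apply]
      rw [h2, norm_smul, norm_inv, norm_norm, inv_mul_cancel₀ hn.ne']
    have h3 := (yb4_sphere_iff _).1 (hm _ h1)
    unfold yf
    rw [norm_smul, norm_norm, h3, mul_one]

theorem yf_hom (c : ℝ) (hc : 0 < c) (x : E5) : yf φ (c • x) = c • yf φ x := by
  unfold yf
  have h : ‖c • x‖⁻¹ • yL (c • x) = ‖x‖⁻¹ • yL x := by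
    rw [map_smul, norm_smul, Real.norm_of_nonneg hc.le, smul_smul, mul_inv]
    congr 1
    field_simp
  rw [h, norm_smul, Real.norm_of_nonneg hc.le, mul_smul]

theorem yf_smooth (hs : ContDiffOn ℝ ∞ φ {x | x ≠ 0}) : ContDiffOn ℝ ∞ (yf φ) (Om (Fin 5)) := by
  intro x hx
  have hx0 : x ≠ 0 := hx
  have hn : 0 < ‖x‖ := norm_pos_iff.2 hx0
  have h1 : ContDiffAt ℝ ∞ (fun y : E5 => ‖y‖) x := contDiffAt_norm ℝ hx0
  have h2 : ContDiffAt ℝ ∞ (fun y : E5 => ‖y‖⁻¹ • yL y) x :=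
    (h1.inv hn.ne').smul (yL : E5 →L[ℝ] (Fin 5 → ℝ)).contDiff.contDiffAt
  have h3 : ContDiffAt ℝ ∞ φ (‖x‖⁻¹ • yL x) := by
    have h4 : ‖x‖⁻¹ • yL x ≠ 0 := by
      refine smul_ne_zero (inv_ne_zero hn.ne') ?_
      intro h5
      apply hx0
      rw [← yb4_vc_L x, h5, yb4_vc, map_zero]
    exact (hs _ h4).contDiffAt (isOpen_ne.mem_nhds h4)
  have h5 : ContDiffAt ℝ ∞ (fun y : E5 => yL.symm (φ (‖y‖⁻¹ • yL y))) x :=
    ((yL.symm : (Fin 5 → ℝ) →L[ℝ] E5).contDiff.contDiffAt).comp x (h3.comp x h2)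
  exact (h1.smul h5).contDiffWithinAt

theorem yf_vc (x : Fin 5 → ℝ) (hx : OnSphere x) : yf φ (vc x) = vc (φ x) := by
  have h := (yb4_sphere_iff x).1 hx
  unfold yf
  rw [h, inv_one, one_smul, one_smul, yb4_L_vc]

theorem yf_diff (hs : ContDiffOn ℝ ∞ φ {x | x ≠ 0}) {x : E5} (hx : x ∈ Om (Fin 5)) :
    DifferentiableAt ℝ (yf φ) x :=
  ((yf_smooth hs x hx).contDiffAt (isOpen_ne.mem_nhds hx)).differentiableAt (by simp)

theorem ynorm_fderiv {ξ v : E5} (hξ : ‖ξ‖ = 1) (hv : ⟪ξ, v⟫ = (0 : ℝ)) :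
    fderiv ℝ (fun y : E5 => ‖y‖) ξ v = 0 := by
  have hξ0 : ξ ≠ 0 := by
    intro h; rw [h, norm_zero] at hξ; exact zero_ne_one hξ
  have h1 : HasFDerivAt (fun y : E5 => ‖y‖) (fderiv ℝ (fun y : E5 => ‖y‖) ξ) ξ :=
    ((contDiffAt_norm ℝ hξ0 : ContDiffAt ℝ 1 (fun y : E5 => ‖y‖) ξ).differentiableAt
      (by simp)).hasFDerivAt
  have h2 := h1.pow 2
  have h3 : HasFDerivAt (fun y : E5 => ‖y‖ ^ 2) (2 • (innerSL ℝ ξ)) ξ :=
    (hasStrictFDerivAt_norm_sq ξ).hasFDerivAt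
  have h4 := congrArg (fun T : E5 →L[ℝ] ℝ => T v) (h2.unique h3)
  simp [hξ, hv] at h4
  exact h4

theorem yf_fderiv (hs : ContDiffOn ℝ ∞ φ {x | x ≠ 0}) (x v : Fin 5 → ℝ) (hv : Tangent x v) :
    fderiv ℝ (yf φ) (vc x) (vc v) = vc (fderiv ℝ φ x v) := by
  have hξ := (yb4_sphere_iff x).1 hv.1
  have hin : ⟪vc x, vc v⟫ = (0 : ℝ) := by rw [yb4_inner_vc]; exact hv.2
  have hξ0 : vc x ≠ 0 := by
    intro h; rw [h, norm_zero] at hξ; exact zero_ne_one hξ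
  have hx0 : x ≠ 0 := by
    intro h; apply hξ0; rw [h, yb4_vc, map_zero]
  have hN := ynorm_fderiv hξ hin
  have h1 : HasFDerivAt (fun y : E5 => ‖y‖) (fderiv ℝ (fun y : E5 => ‖y‖) (vc x)) (vc x) :=
    ((contDiffAt_norm ℝ hξ0 : ContDiffAt ℝ 1 (fun y : E5 => ‖y‖) (vc x)).differentiableAt
      (by simp)).hasFDerivAt
  have h1i : HasFDerivAt (fun y : E5 => ‖y‖⁻¹)
      ((-(‖vc x‖ ^ 2)⁻¹) • fderiv ℝ (fun y : E5 => ‖y‖) (vc x)) (vc x) :=
    (hasDerivAt_inv (by rw [hξ]; exact one_ne_zero)).comp_hasFDerivAt (vc x) h1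
  have hL : HasFDerivAt (fun y : E5 => yL y) (yL : E5 →L[ℝ] (Fin 5 → ℝ)) (vc x) :=
    (yL : E5 →L[ℝ] (Fin 5 → ℝ)).hasFDerivAt
  have h2 := h1i.smul hL
  have hpt : ‖vc x‖⁻¹ • yL (vc x) = x := by rw [hξ, inv_one, one_smul, yb4_L_vc]
  have h3 : HasFDerivAt φ (fderiv ℝ φ x) (‖vc x‖⁻¹ • yL (vc x)) := by
    rw [hpt]
    exact (((hs x hx0).contDiffAt (isOpen_ne.mem_nhds hx0)).differentiableAt (by simp)).hasFDerivAt
  have h4 := h3.comp (vc x) h2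
  have h5 := (yL.symm : (Fin 5 → ℝ) →L[ℝ] E5).hasFDerivAt.comp (vc x) h4
  have h6 := h1.smul h5
  have h7 : HasFDerivAt (yf φ) _ (vc x) := h6
  rw [h7.fderiv]
  simp only [add_apply, smul_apply, ContinuousLinearMap.comp_apply,
    ContinuousLinearMap.smulRight_apply, hN, hξ]
  simp [yb4_vc]
  congr 2

theorem yf_euler (hs : ContDiffOn ℝ ∞ φ {x | x ≠ 0}) {x : E5} (hx : x ∈ Om (Fin 5)) :
    fderiv ℝ (yf φ) x x = yf φ x := by
  have h1 : HasDerivAt (fun t : ℝ => (1 + t) • x) x 0 := by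
    have := ((hasDerivAt_id (0 : ℝ)).const_add 1).smul_const x
    simpa using this
  have h2 : HasFDerivAt (yf φ) (fderiv ℝ (yf φ) x) ((1 + (0 : ℝ)) • x) := by
    rw [add_zero, one_smul]
    exact (yf_diff hs hx).hasFDerivAt
  have h3 := h2.comp_hasDerivAt (0 : ℝ) h1
  have h4 : HasDerivAt (fun t : ℝ => (1 + t) • yf φ x) (yf φ x) 0 := by
    have := ((hasDerivAt_id (0 : ℝ)).const_add 1).smul_const (yf φ x)
    simpa using this
  have h5 : (yf φ ∘ fun t : ℝ => (1 + t) • x) =ᶠ[𝓝 0] fun t : ℝ => (1 + t) • yf φ x := by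
    have : Ioi (-1 : ℝ) ∈ 𝓝 (0 : ℝ) := Ioi_mem_nhds (by norm_num)
    filter_upwards [this] with t ht
    have ht' : (-1 : ℝ) < t := ht
    exact yf_hom _ (by linarith) x
  exact (h3.congr_of_eventuallyEq h5.symm).unique h4

theorem yf_tan (hs : ContDiffOn ℝ ∞ φ {x | x ≠ 0}) (hm : ∀ x, OnSphere x → OnSphere (φ x))
    {x : E5} (hx : x ∈ Om (Fin 5)) (v : E5) :
    ⟪yf φ x, fderiv ℝ (yf φ) x v⟫ = ⟪x, v⟫ := by
  have h1 := (yf_diff hs hx).hasFDerivAt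
  have h2 := h1.norm_sq
  have h3 : HasFDerivAt (fun y : E5 => ‖y‖ ^ 2) (2 • (innerSL ℝ x)) x :=
    (hasStrictFDerivAt_norm_sq x).hasFDerivAt
  have h4 : (fun y : E5 => ‖yf φ y‖ ^ 2) = fun y : E5 => ‖y‖ ^ 2 := by
    funext y
    rw [yf_norm hm]
  rw [h4] at h2
  have h5 := congrArg (fun T : E5 →L[ℝ] ℝ => T v) (h2.unique h3)
  simp at h5
  exact h5

theorem yf_fderiv_hom (hs : ContDiffOn ℝ ∞ φ {x | x ≠ 0}) {x : E5} (hx : x ∈ Om (Fin 5))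
    {c : ℝ} (hc : 0 < c) : fderiv ℝ (yf φ) (c • x) = fderiv ℝ (yf φ) x := by
  have hcx : c • x ∈ Om (Fin 5) := smul_ne_zero hc.ne' hx
  have h1 : HasFDerivAt (fun y : E5 => c • y) (c • ContinuousLinearMap.id ℝ E5) x :=
    (hasFDerivAt_id x).const_smul c
  have h2 := ((yf_diff hs hcx).hasFDerivAt).comp x h1
  have h3 := (yf_diff hs hx).hasFDerivAt.const_smul c
  have h4 : (yf φ ∘ fun y : E5 => c • y) = fun y => c • yf φ y := by
    funext y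
    exact yf_hom c hc y
  rw [h4] at h2
  have h5 := h2.unique h3
  ext1 v
  have h6 := congrArg (fun T : E5 →L[ℝ] E5 => T v) h5
  simp only [ContinuousLinearMap.comp_apply, smul_apply, ContinuousLinearMap.id_apply,
    map_smul] at h6
  exact smul_right_injective E5 hc.ne' h6

end

/-- **Row YB4.** -/
theorem yb4 : Yb4Statement := by
  intro g G φ _ hG hgG hφ
  refine ⟨yf φ, ⟨yf_smooth hφ.smooth, yf_norm hφ.maps, fun c hc x _ => yf_hom c hc x, ?_⟩,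
    yf_vc, yf_fderiv hφ.smooth⟩
  -- unit vectors
  have unit : ∀ ξ : E5, ‖ξ‖ = 1 → ∀ v w : E5,
      G (yf φ ξ) (fderiv ℝ (yf φ) ξ v) (fderiv ℝ (yf φ) ξ w) = G ξ v w := by
    intro ξ hξ v w
    have hξ0 : ξ ∈ Om (Fin 5) := by
      intro h; rw [h, norm_zero] at hξ; exact zero_ne_one hξ
    have tangential : ∀ v w : E5, ⟪ξ, v⟫ = (0 : ℝ) → ⟪ξ, w⟫ = (0 : ℝ) →
        G (yf φ ξ) (fderiv ℝ (yf φ) ξ v) (fderiv ℝ (yf φ) ξ w) = G ξ v w := by
      intro v w hv hw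
      have hs : OnSphere (yL ξ) := (yb4_sphere_iff _).2 (by rw [yb4_vc_L]; exact hξ)
      have hTv : Tangent (yL ξ) (yL v) :=
        ⟨hs, by rw [← yb4_inner_vc, yb4_vc_L, yb4_vc_L]; exact hv⟩
      have hTw : Tangent (yL ξ) (yL w) :=
        ⟨hs, by rw [← yb4_inner_vc, yb4_vc_L, yb4_vc_L]; exact hw⟩
      have e0 := yf_vc (φ := φ) (yL ξ) hs
      have e1 := yf_fderiv hφ.smooth (yL ξ) (yL v) hTv
      have e2 := yf_fderiv hφ.smooth (yL ξ) (yL w) hTw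
      have t1 := yf_tan hφ.smooth hφ.maps hξ0 v
      have t2 := yf_tan hφ.smooth hφ.maps hξ0 w
      rw [yb4_vc_L, yb4_vc_L] at e1 e2
      rw [yb4_vc_L] at e0
      have hs' := hφ.maps _ hs
      have hT1 : Tangent (φ (yL ξ)) (fderiv ℝ φ (yL ξ) (yL v)) := by
        refine ⟨hs', ?_⟩
        rw [← yb4_inner_vc, ← e0, ← e1, t1, hv]
      have hT2 : Tangent (φ (yL ξ)) (fderiv ℝ φ (yL ξ) (yL w)) := by
        refine ⟨hs', ?_⟩
        rw [← yb4_inner_vc, ← e0, ← e2, t2, hw]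
      rw [e0, e1, e2, hgG _ _ _ hT1 hT2, hφ.pres _ hs _ _ hTv hTw, ← hgG _ _ _ hTv hTw,
        yb4_vc_L, yb4_vc_L, yb4_vc_L]
    set lam : ℝ := ⟪ξ, v⟫ with hlam
    set mu : ℝ := ⟪ξ, w⟫ with hmu
    have hv' : ⟪ξ, v - lam • ξ⟫ = (0 : ℝ) := by
      rw [inner_sub_right, inner_smul_right, real_inner_self_eq_norm_sq, hξ, ← hlam]; ring
    have hw' : ⟪ξ, w - mu • ξ⟫ = (0 : ℝ) := by
      rw [inner_sub_right, inner_smul_right, real_inner_self_eq_norm_sq, hξ, ← hmu]; ring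
    have hRn : ‖yf φ ξ‖ = 1 := by rw [yf_norm hφ.maps, hξ]
    have e1 := yb4_split hG hξ (v - lam • ξ) (w - mu • ξ) lam mu hv' hw'
    have e2 := yb4_split hG hRn (fderiv ℝ (yf φ) ξ (v - lam • ξ))
      (fderiv ℝ (yf φ) ξ (w - mu • ξ)) lam mu
      (by rw [yf_tan hφ.smooth hφ.maps hξ0]; exact hv')
      (by rw [yf_tan hφ.smooth hφ.maps hξ0]; exact hw')
    rw [sub_add_cancel, sub_add_cancel] at e1
    rw [← yf_euler hφ.smooth hξ0, ← map_smul, ← map_add, ← map_smul, ← map_add, sub_add_cancel,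
      sub_add_cancel, yf_euler hφ.smooth hξ0] at e2
    rw [e1, e2, tangential _ _ hv' hw']
  intro x hx v w
  have hxn : 0 < ‖x‖ := norm_pos_iff.mpr hx
  set r := ‖x‖ with hr
  have hξ : ‖r⁻¹ • x‖ = 1 := by
    rw [norm_smul, Real.norm_of_nonneg (inv_pos.mpr hxn).le, ← hr, inv_mul_cancel₀ hxn.ne']
  have hξ0 : r⁻¹ • x ∈ Om (Fin 5) := by
    intro h; rw [h, norm_zero] at hξ; exact zero_ne_one hξ
  have hf0 : yf φ (r⁻¹ • x) ∈ Om (Fin 5) := by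
    intro h
    have h1 := yf_norm hφ.maps (r⁻¹ • x)
    rw [h, norm_zero, hξ] at h1
    exact zero_ne_one h1
  have ex : x = r • (r⁻¹ • x) := by
    rw [smul_smul, mul_inv_cancel₀ hxn.ne', one_smul]
  have h1 : G x = (r ^ 2)⁻¹ • G (r⁻¹ • x) := by
    conv_lhs => rw [ex]
    exact hG.homog r hxn _ hξ0
  have h2 : G (yf φ x) = (r ^ 2)⁻¹ • G (yf φ (r⁻¹ • x)) := by
    conv_lhs => rw [ex, yf_hom r hxn]
    exact hG.homog r hxn _ hf0
  have h3 : fderiv ℝ (yf φ) x = fderiv ℝ (yf φ) (r⁻¹ • x) := by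
    conv_lhs => rw [ex]
    exact yf_fderiv_hom hφ.smooth hξ0 hxn
  rw [h1, h2, h3]
  simp only [smul_apply]
  rw [unit _ hξ v w]

end Pool.Agent.ZRT.H74
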